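import Pool.Agent.Helper92.W.St

/-!
# Lemma W, module LLN: law of large numbers for nested partitions
-/

set_option autoImplicit false

namespace Pool.Agent.Helper92.W

open Finset Pool.Agent.Helper69.RK Pool.Agent.Helper61.GL Pool.Agent.Helper46.WF

section lln

variable {Ω α γ κ : Type} [Fintype Ω]

theorem srp_congr (μ : Ω → ℝ) (f : Ω → α) (g : Ω → γ) {ω ω' : Ω} (hf : f ω = f ω')
    (hg : g ω = g ω') : srp μ f g ω = srp μ f g ω' := by
  unfold srp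
  rw [e1_pr_atom μ g ω ω' hg,
    e1_pr_atom μ (fun ω' => (f ω', g ω')) ω ω' (by simp only [hf, hg])]

theorem LH_eq_srp (μ : Ω → ℝ) (f : Ω → α) (g : Ω → γ) (ω : Ω) :
    LH μ f g ω = ∑ ω', cw μ g ω ω' * srp μ f g ω' := rfl

/-- conditional means against a measurable function -/
theorem sum_meas (μ : Ω → ℝ) (hμ : ∀ ω, 0 ≤ μ ω) (G : Ω → γ) (g s : Ω → ℝ)
    (hg : ∀ ω ω', G ω = G ω' → g ω = g ω') :
    ∑ ω, μ ω * (g ω * ∑ ω', cw μ G ω ω' * s ω') = ∑ ω, μ ω * (g ω * s ω) := by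
  rw [← sum_cw μ hμ G (fun ω => g ω * s ω)]
  refine Finset.sum_congr rfl fun ω _ => ?_
  congr 1
  rw [Finset.mul_sum]
  refine Finset.sum_congr rfl fun ω' _ => ?_
  by_cases h : cw μ G ω ω' = 0
  · rw [h]; ring
  · rw [hg ω ω' (cw_ne_zero μ G h).1.symm]; ring

/-- the martingale difference -/
noncomputable def dd (μ : Ω → ℝ) (f : Ω → α) (g : Ω → γ) (ω : Ω) : ℝ :=
  srp μ f g ω - LH μ f g ω

theorem dd_congr (μ : Ω → ℝ) (f : Ω → α) (g : Ω → γ) {ω ω' : Ω} (hf : f ω = f ω')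
    (hg : g ω = g ω') : dd μ f g ω = dd μ f g ω' := by
  unfold dd
  rw [srp_congr μ f g hf hg, LH_congr μ f g hg]

theorem dd_orth (μ : Ω → ℝ) (hμ : ∀ ω, 0 ≤ μ ω) (f : Ω → α) (G : Ω → γ) (g : Ω → ℝ)
    (hg : ∀ ω ω', G ω = G ω' → g ω = g ω') : ∑ ω, μ ω * (g ω * dd μ f G ω) = 0 := by
  have h := sum_meas μ hμ G g (srp μ f G) hg
  have e : ∀ ω, μ ω * (g ω * dd μ f G ω) =
      μ ω * (g ω * srp μ f G ω) - μ ω * (g ω * ∑ ω', cw μ G ω ω' * srp μ f G ω') := by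
    intro ω
    unfold dd
    rw [LH_eq_srp]
    ring
  simp only [e]
  rw [Finset.sum_sub_distrib, h, sub_self]

theorem dd_sq_le (μ : Ω → ℝ) (hμ : ∀ ω, 0 ≤ μ ω) (f : Ω → α) (G : Ω → γ) :
    ∑ ω, μ ω * dd μ f G ω ^ 2 ≤ ∑ ω, μ ω * srp μ f G ω ^ 2 := by
  have h1 := dd_orth μ hμ f G (fun ω => LH μ f G ω) (fun ω ω' h => LH_congr μ f G h)
  have e : ∀ ω, μ ω * srp μ f G ω ^ 2 = μ ω * dd μ f G ω ^ 2 +
      2 * (μ ω * (LH μ f G ω * dd μ f G ω)) + μ ω * LH μ f G ω ^ 2 := by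
    intro ω
    unfold dd
    ring
  simp only [e]
  rw [Finset.sum_add_distrib, Finset.sum_add_distrib, ← Finset.mul_sum, h1]
  have : 0 ≤ ∑ ω, μ ω * LH μ f G ω ^ 2 :=
    Finset.sum_nonneg fun ω _ => mul_nonneg (hμ ω) (sq_nonneg _)
  linarith

theorem logb_sq_le {r : ℝ} (hr : 1 ≤ r) : Real.logb 2 r ^ 2 ≤ 9 * r := by
  have h0 : 0 < r := by linarith
  have hs : 0 < Real.sqrt r := Real.sqrt_pos.2 h0
  have h1 : Real.log r = 2 * Real.log (Real.sqrt r) := by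
    rw [Real.log_sqrt h0.le]; ring
  have h2 : Real.log (Real.sqrt r) ≤ Real.sqrt r := by
    have := Real.log_le_sub_one_of_pos hs
    linarith
  have h3 : 0 ≤ Real.log r := Real.log_nonneg hr
  have h4 : Real.log r ^ 2 ≤ 4 * r := by
    have h5 : Real.log r ≤ 2 * Real.sqrt r := by rw [h1]; linarith
    have h6 : Real.log r ^ 2 ≤ (2 * Real.sqrt r) ^ 2 := pow_le_pow_left₀ h3 h5 2
    have h7 : (2 * Real.sqrt r) ^ 2 = 4 * r := by
      rw [mul_pow, Real.sq_sqrt h0.le]; norm_num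
    linarith
  have h8 : (2 : ℝ) / 3 ≤ Real.log 2 := by
    have := Real.log_two_gt_d9
    linarith
  unfold Real.logb
  rw [div_pow, div_le_iff₀ (by positivity)]
  have h9 : (4 : ℝ) / 9 ≤ Real.log 2 ^ 2 := by nlinarith
  nlinarith

open Classical in
/-- second moment of the surprisal -/
theorem srp_sq_le (μ : Ω → ℝ) (hμ : ∀ ω, 0 ≤ μ ω) (hm : mass μ = 1) (f : Ω → α) (G : Ω → γ)
    (K : ℕ) (hc : ∀ ω, (((univ : Finset Ω).filter (fun ω' => G ω' = G ω)).image f).card ≤ 2 ^ K) :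
    ∑ ω, μ ω * srp μ f G ω ^ 2 ≤ 9 * 2 ^ K := by
  set q : Ω → ℝ := fun ω => μ ω / pr μ (fun ω' => (f ω', G ω')) ω with hq
  have hq0 : ∀ ω, 0 ≤ q ω := fun ω => div_nonneg (hμ ω) (e1_pr_nonneg μ _ hμ ω)
  have h1 : ∀ ω, μ ω * srp μ f G ω ^ 2 ≤ 9 * (pr μ G ω * q ω) := by
    intro ω
    by_cases h0 : μ ω = 0
    · rw [h0, zero_mul]
      exact mul_nonneg (by norm_num) (mul_nonneg (e1_pr_nonneg μ G hμ ω) (hq0 ω))
    have p1 := e1_pr_pos μ G hμ ω h0
    have p2 := e1_pr_pos μ (fun ω' => (f ω', G ω')) hμ ω h0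
    have h2 : pr μ (fun ω' => (f ω', G ω')) ω ≤ pr μ G ω :=
      e1_pr_mono μ _ _ hμ ω (fun ω' _ h => (Prod.ext_iff.1 h).2)
    have h3 : 1 ≤ pr μ G ω / pr μ (fun ω' => (f ω', G ω')) ω := (one_le_div p2).2 h2
    have h4 := logb_sq_le h3
    rw [Real.logb_div p1.ne' p2.ne'] at h4
    have h5 : μ ω * srp μ f G ω ^ 2 ≤ μ ω * (9 * (pr μ G ω / pr μ (fun ω' => (f ω', G ω')) ω)) :=
      mul_le_mul_of_nonneg_left h4 (hμ ω)
    refine h5.trans (le_of_eq ?_)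
    rw [hq]
    ring
  refine (Finset.sum_le_sum fun ω _ => h1 ω).trans ?_
  rw [← Finset.mul_sum]
  refine mul_le_mul_of_nonneg_left ?_ (by norm_num)
  have h6 : ∀ ω, pr μ G ω * q ω = ∑ ω1, μ ω1 * (if G ω = G ω1 then q ω else 0) := by
    intro ω
    rw [e1_pr_eq, Finset.sum_mul]
    refine Finset.sum_congr rfl fun ω1 _ => ?_
    by_cases h : G ω = G ω1
    · rw [if_pos h, if_pos h.symm]
    · rw [if_neg h, if_neg (fun h' => h h'.symm), zero_mul, mul_zero]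
  simp only [h6]
  rw [Finset.sum_comm]
  have h7 : ∀ ω1, ∑ ω, μ ω1 * (if G ω = G ω1 then q ω else 0) ≤ μ ω1 * 2 ^ K := by
    intro ω1
    rw [← Finset.mul_sum]
    refine mul_le_mul_of_nonneg_left ?_ (hμ ω1)
    have h8 := e3_sum_atom μ f G hμ ω1
    have h9 : ∑ ω, (if G ω = G ω1 then q ω else 0) =
        ∑ ω ∈ (univ : Finset Ω).filter (fun ω' => μ ω' ≠ 0 ∧ G ω' = G ω1), q ω := by
      rw [Finset.sum_filter]
      refine Finset.sum_congr rfl fun ω _ => ?_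
      by_cases h0 : μ ω = 0
      · have : q ω = 0 := by rw [hq]; simp [h0]
        simp [h0, this]
      · simp [h0]
    rw [h9]
    refine h8.trans ?_
    have h10 : (((univ : Finset Ω).filter (fun ω' => μ ω' ≠ 0 ∧ G ω' = G ω1)).image f).card ≤
        (((univ : Finset Ω).filter (fun ω' => G ω' = G ω1)).image f).card := by
      refine Finset.card_le_card (Finset.image_subset_image ?_)
      intro ω hω
      rw [Finset.mem_filter] at hω ⊢
      exact ⟨hω.1, hω.2.2⟩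
    exact_mod_cast h10.trans (hc ω1)
  refine (Finset.sum_le_sum fun ω1 _ => h7 ω1).trans ?_
  rw [← Finset.sum_mul]
  have : ∑ ω, μ ω = 1 := hm
  rw [this, one_mul]

end lln

open Classical in
theorem st_LLN : ST_LLN := by
  intro K ρ hρ
  refine ⟨2 * ρ * (9 * 2 ^ K), ?_⟩
  intro Ω κ _ μ cl hμ hm hn hc N S hS
  have hn' : ∀ k l ω ω', cl (l + k) ω = cl (l + k) ω' → cl l ω = cl l ω' := by
    intro k
    induction k with
    | zero => intro l ω ω' h; exact h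
    | succ k ih => intro l ω ω' h; exact ih l ω ω' (hn (l + k) ω ω' h)
  set D : ℕ → Ω → ℝ := fun l ω => dd μ (cl (l + ρ)) (cl l) ω with hD
  have hD2 : ∀ l, ∑ ω, μ ω * D l ω ^ 2 ≤ 9 * 2 ^ K := fun l =>
    (dd_sq_le μ hμ _ _).trans (srp_sq_le μ hμ hm _ _ K (hc l))
  have horth : ∀ l l', l + ρ ≤ l' → ∑ ω, μ ω * (D l ω * D l' ω) = 0 := by
    intro l l' h
    refine dd_orth μ hμ (cl (l' + ρ)) (cl l') (D l) fun ω ω' e => ?_
    obtain ⟨k, rfl⟩ := Nat.exists_eq_add_of_le h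
    have e1 := hn' k (l + ρ) ω ω' e
    exact dd_congr μ _ _ e1 (hn' ρ l ω ω' e1)
  have hcr : ∀ l l', ∑ ω, μ ω * (D l ω * D l' ω) ≤ 9 * 2 ^ K := by
    intro l l'
    have h1 : ∑ ω, μ ω * (D l ω * D l' ω) ≤
        ∑ ω, (1 / 2 * (μ ω * D l ω ^ 2) + 1 / 2 * (μ ω * D l' ω ^ 2)) := by
      refine Finset.sum_le_sum fun ω _ => ?_
      have := mul_nonneg (hμ ω) (sq_nonneg (D l ω - D l' ω))
      nlinarith
    rw [Finset.sum_add_distrib, ← Finset.mul_sum, ← Finset.mul_sum] at h1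
    have := hD2 l
    have := hD2 l'
    linarith
  have hexp : ∑ ω, μ ω * (∑ l ∈ S, (srp μ (cl (l + ρ)) (cl l) ω - LH μ (cl (l + ρ)) (cl l) ω)) ^ 2 =
      ∑ l ∈ S, ∑ l' ∈ S, ∑ ω, μ ω * (D l ω * D l' ω) := by
    have e1 : ∀ ω, μ ω * (∑ l ∈ S, (srp μ (cl (l + ρ)) (cl l) ω - LH μ (cl (l + ρ)) (cl l) ω)) ^ 2 =
        ∑ l ∈ S, ∑ l' ∈ S, μ ω * (D l ω * D l' ω) := by
      intro ω
      rw [sq, Finset.sum_mul_sum, Finset.mul_sum]
      refine Finset.sum_congr rfl fun l _ => ?_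
      rw [Finset.mul_sum]
      rfl
    simp only [e1]
    rw [Finset.sum_comm]
    refine Finset.sum_congr rfl fun l _ => ?_
    rw [Finset.sum_comm]
  rw [hexp]
  have hrow : ∀ l ∈ S, ∑ l' ∈ S, ∑ ω, μ ω * (D l ω * D l' ω) ≤ 2 * ρ * (9 * 2 ^ K) := by
    intro l _
    have h1 : ∑ l' ∈ S, ∑ ω, μ ω * (D l ω * D l' ω) ≤
        ∑ l' ∈ S.filter (fun l' => l' < l + ρ ∧ l < l' + ρ), (9 * 2 ^ K : ℝ) := by
      rw [Finset.sum_filter]
      refine Finset.sum_le_sum fun l' _ => ?_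
      split_ifs with h
      · exact hcr l l'
      · rw [not_and_or, not_lt, not_lt] at h
        rcases h with h | h
        · exact (horth l l' h).le
        · have := horth l' l h
          refine le_of_eq ?_
          rw [← this]
          refine Finset.sum_congr rfl fun ω _ => ?_
          ring
    refine h1.trans ?_
    rw [Finset.sum_const, nsmul_eq_mul]
    refine mul_le_mul_of_nonneg_right ?_ (by positivity)
    have h2 : (S.filter (fun l' => l' < l + ρ ∧ l < l' + ρ)).card ≤ 2 * ρ := by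
      have h3 : S.filter (fun l' => l' < l + ρ ∧ l < l' + ρ) ⊆ Finset.Ico (l + 1 - ρ) (l + ρ) := by
        intro x hx
        rw [Finset.mem_filter] at hx
        rw [Finset.mem_Ico]
        omega
      refine (Finset.card_le_card h3).trans ?_
      rw [Nat.card_Ico]
      omega
    exact_mod_cast h2
  refine (Finset.sum_le_sum hrow).trans ?_
  rw [Finset.sum_const, nsmul_eq_mul]
  have h4 : (S.card : ℝ) ≤ N := by
    have := Finset.card_le_card hS
    rw [Finset.card_range] at this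
    exact_mod_cast this
  have h5 : (0 : ℝ) ≤ 2 * ρ * (9 * 2 ^ K) := by positivity
  nlinarith

end Pool.Agent.Helper92.W
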