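import Pool.Agent.Helper92.W.St

/-!
# Lemma W, module SLO: slow variation of the local entropies
-/

set_option autoImplicit false

namespace Pool.Agent.Helper92.W

open Finset Pool.Agent.Helper69.RK Pool.Agent.Helper61.GL Pool.Agent.Helper46.WF

/-! ### cells -/

theorem floor_two (y : ℝ) (l : ℕ) : 2 * ⌊(2 : ℝ) ^ l * y⌋ ≤ ⌊(2 : ℝ) ^ (l + 1) * y⌋ ∧
    ⌊(2 : ℝ) ^ (l + 1) * y⌋ ≤ 2 * ⌊(2 : ℝ) ^ l * y⌋ + 1 := by
  have h1 := Int.floor_le ((2 : ℝ) ^ l * y)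
  have h2 := Int.lt_floor_add_one ((2 : ℝ) ^ l * y)
  have e : (2 : ℝ) ^ (l + 1) * y = 2 * ((2 : ℝ) ^ l * y) := by ring
  constructor
  · rw [Int.le_floor, e]
    push_cast
    linarith
  · have : ⌊(2 : ℝ) ^ (l + 1) * y⌋ < 2 * ⌊(2 : ℝ) ^ l * y⌋ + 2 := by
      rw [Int.floor_lt, e]
      push_cast
      linarith
    omega

theorem cel_step {m : ℕ} (l : ℕ) {v v' : Fin m → ℝ} (h : cel (l + 1) v = cel (l + 1) v') :
    cel l v = cel l v' := by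
  funext i
  have h1 := floor_two (v i) l
  have h2 := floor_two (v' i) l
  have h3 : ⌊(2 : ℝ) ^ (l + 1) * v i⌋ = ⌊(2 : ℝ) ^ (l + 1) * v' i⌋ := congrFun h i
  show ⌊(2 : ℝ) ^ l * v i⌋ = ⌊(2 : ℝ) ^ l * v' i⌋
  omega

theorem cel_fr (ρ l : ℕ) (v : Fin 2 → ℝ) (i : Fin 2) :
    cel ρ (fr l v) i = cel (l + ρ) v i - 2 ^ ρ * cel l v i := by
  show ⌊(2 : ℝ) ^ ρ * Int.fract ((2 : ℝ) ^ l * v i)⌋ = ⌊(2 : ℝ) ^ (l + ρ) * v i⌋ -
    2 ^ ρ * ⌊(2 : ℝ) ^ l * v i⌋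
  have e : (2 : ℝ) ^ ρ * Int.fract ((2 : ℝ) ^ l * v i) = (2 : ℝ) ^ (l + ρ) * v i -
      ((2 ^ ρ * ⌊(2 : ℝ) ^ l * v i⌋ : ℤ) : ℝ) := by
    unfold Int.fract
    push_cast
    ring
  rw [e, Int.floor_sub_intCast]

section slo

variable {Ω α γ : Type} [Fintype Ω]

/-- the local entropy through the cells of `X` -/
theorem eL_eq (μ : Ω → ℝ) (X : Ω → Fin 2 → ℝ) (ρ l : ℕ) (ω : Ω) :
    eL μ X ρ l ω = Hh (cw μ (fun ω' => cel l (X ω')) ω) (fun ω' => cel (l + ρ) (X ω')) := by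
  unfold eL lw Hh
  apply ch_congr_left
  intro a b ha hb _
  have h1 : cel l (X a) = cel l (X b) :=
    (cw_ne_zero μ _ ha).1.trans (cw_ne_zero μ _ hb).1.symm
  constructor
  · intro h
    funext i
    have h2 : cel ρ (fr l (X a)) i = cel ρ (fr l (X b)) i := congrFun h i
    rw [cel_fr, cel_fr, h1] at h2
    linarith
  · intro h
    funext i
    show cel ρ (fr l (X a)) i = cel ρ (fr l (X b)) i
    rw [cel_fr, cel_fr, h1]
    have h3 : cel (l + ρ) (X a) = cel (l + ρ) (X b) := h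
    rw [h3]

theorem eL_congr (μ : Ω → ℝ) (X : Ω → Fin 2 → ℝ) (ρ l : ℕ) {ω ω' : Ω}
    (h : cel l (X ω) = cel l (X ω')) : eL μ X ρ l ω = eL μ X ρ l ω' := by
  unfold eL lw
  have : cw μ (fun ω' => cel l (X ω')) ω = cw μ (fun ω' => cel l (X ω')) ω' := by
    funext ω''
    exact cw_congr μ _ h ω''
  rw [this]

theorem slo_eL_nonneg (μ : Ω → ℝ) (hμ : ∀ ω, 0 ≤ μ ω) (X : Ω → Fin 2 → ℝ) (ρ l : ℕ) (ω : Ω) :
    0 ≤ eL μ X ρ l ω := Hh_nonneg _ (cw_nonneg μ _ hμ ω) _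

theorem slo_eL_le (μ : Ω → ℝ) (hμ : ∀ ω, 0 ≤ μ ω) (X : Ω → Fin 2 → ℝ) (ρ l : ℕ) (ω : Ω)
    (h0 : μ ω ≠ 0) : eL μ X ρ l ω ≤ 2 * ρ := by
  have h1 := st_E3.2 Ω Unit 2 (lw μ X l ω) (fun ω' => cel ρ (fr l (X ω'))) (fun _ => ())
    (2 ^ ρ - 1) (cw_nonneg μ _ hμ ω) (by
      have : (1 : ℝ) ≤ 2 ^ ρ := one_le_pow₀ (by norm_num)
      linarith) (fun a b _ _ _ i => by
      have hb : ∀ x : Fin 2 → ℝ, (0 : ℝ) ≤ (cel ρ (fr l x) i : ℝ) ∧
          (cel ρ (fr l x) i : ℝ) ≤ 2 ^ ρ - 1 := by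
        intro x
        have f0 : 0 ≤ Int.fract ((2 : ℝ) ^ l * x i) := Int.fract_nonneg _
        have f1 : Int.fract ((2 : ℝ) ^ l * x i) < 1 := Int.fract_lt_one _
        have g0 : (0 : ℤ) ≤ cel ρ (fr l x) i := by
          show (0 : ℤ) ≤ ⌊(2 : ℝ) ^ ρ * Int.fract ((2 : ℝ) ^ l * x i)⌋
          rw [Int.le_floor]
          push_cast
          positivity
        have g1 : cel ρ (fr l x) i < 2 ^ ρ := by
          show ⌊(2 : ℝ) ^ ρ * Int.fract ((2 : ℝ) ^ l * x i)⌋ < 2 ^ ρ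
          rw [Int.floor_lt]
          push_cast
          have : (0 : ℝ) < 2 ^ ρ := by positivity
          nlinarith
        constructor
        · exact_mod_cast g0
        · have : cel ρ (fr l x) i ≤ 2 ^ ρ - 1 := by omega
          exact_mod_cast this
      have ha := hb (X a)
      have hb' := hb (X b)
      rw [abs_le]
      constructor <;> linarith)
  have h2 : mass (lw μ X l ω) = 1 := cw_sum μ _ hμ ω h0
  rw [h2, sub_add_cancel, Real.logb_pow, Real.logb_self_eq_one (by norm_num)] at h1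
  refine h1.trans (le_of_eq ?_)
  push_cast
  ring

theorem cw_mul (μ g : Ω → ℝ) (G : Ω → γ) (hg : ∀ ω ω', G ω = G ω' → g ω = g ω') (ω : Ω)
    (h : g ω ≠ 0) : cw (fun ω' => g ω' * μ ω') G ω = cw μ G ω := by
  classical
  have h1 : pr (fun ω' => g ω' * μ ω') G ω = g ω * pr μ G ω := by
    rw [e1_pr_eq, e1_pr_eq, Finset.mul_sum]
    refine Finset.sum_congr rfl fun ω' _ => ?_
    by_cases h2 : G ω' = G ω
    · rw [if_pos h2, if_pos h2, hg ω' ω h2]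
    · rw [if_neg h2, if_neg h2, mul_zero]
  funext ω'
  unfold cw
  rw [h1]
  by_cases h2 : G ω' = G ω
  · rw [if_pos h2, if_pos h2]
    show g ω' * μ ω' / (g ω * pr μ G ω) = μ ω' / pr μ G ω
    rw [hg ω' ω h2, mul_div_mul_left _ _ h]
  · rw [if_neg h2, if_neg h2, zero_div, zero_div]

/-- means of local entropies against measurable weights -/
theorem sum_eL (μ : Ω → ℝ) (hμ : ∀ ω, 0 ≤ μ ω) (X : Ω → Fin 2 → ℝ) (ρ l : ℕ) (g : Ω → ℝ)
    (hg0 : ∀ ω, 0 ≤ g ω) (hg : ∀ ω ω', cel l (X ω) = cel l (X ω') → g ω = g ω') :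
    ∑ ω, μ ω * (g ω * eL μ X ρ l ω) =
      CH (fun ω => g ω * μ ω) (fun ω => cel (l + ρ) (X ω)) (fun ω => cel l (X ω)) := by
  rw [CH_disint (fun ω => g ω * μ ω) (fun ω => mul_nonneg (hg0 ω) (hμ ω))]
  refine Finset.sum_congr rfl fun ω _ => ?_
  by_cases h : g ω = 0
  · rw [h]; ring
  rw [cw_mul μ g _ hg ω h, eL_eq]
  ring

theorem slo_step (μ : Ω → ℝ) (hμ : ∀ ω, 0 ≤ μ ω) (hm : mass μ = 1) (X : Ω → Fin 2 → ℝ)
    (ρ l : ℕ) : ∑ ω, μ ω * (eL μ X ρ l ω * eL μ X ρ l ω) - 4 * ρ ≤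
      ∑ ω, μ ω * (eL μ X ρ l ω * eL μ X ρ (l + 1) ω) := by
  set g : Ω → ℝ := fun ω => eL μ X ρ l ω with hg
  set ν : Ω → ℝ := fun ω => g ω * μ ω with hν
  have hg0 : ∀ ω, 0 ≤ g ω := fun ω => slo_eL_nonneg μ hμ X ρ l ω
  have hν0 : ∀ ω, 0 ≤ ν ω := fun ω => mul_nonneg (hg0 ω) (hμ ω)
  have hgl : ∀ ω ω', cel l (X ω) = cel l (X ω') → g ω = g ω' := fun ω ω' h => eL_congr μ X ρ l h
  rw [sum_eL μ hμ X ρ l g hg0 hgl,
    sum_eL μ hμ X ρ (l + 1) g hg0 (fun ω ω' h => hgl ω ω' (cel_step l h))]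
  have h1 : CH ν (fun ω => cel (l + ρ) (X ω)) (fun ω => cel l (X ω)) ≤
      CH ν (fun ω => cel (l + 1 + ρ) (X ω)) (fun ω => cel l (X ω)) := by
    apply ch_mono ν hν0
    intro ω ω' _ _ h _
    have e : l + 1 + ρ = (l + ρ) + 1 := by ring
    rw [e] at h
    exact cel_step (l + ρ) h
  have h2 := ch_chain ν (fun ω => cel (l + 1) (X ω)) (fun ω => cel (l + 1 + ρ) (X ω))
    (fun ω => cel l (X ω))
  have hn : ∀ (k : ℕ) (ω ω' : Ω), cel (l + 1 + k) (X ω) = cel (l + 1 + k) (X ω') →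
      cel (l + 1) (X ω) = cel (l + 1) (X ω') := by
    intro k
    induction k with
    | zero => intro ω ω' h; exact h
    | succ k ih => intro ω ω' h; exact ih ω ω' (cel_step (l + 1 + k) h)
  have h3 : CH ν (fun ω => (cel (l + 1) (X ω), cel (l + 1 + ρ) (X ω))) (fun ω => cel l (X ω)) =
      CH ν (fun ω => cel (l + 1 + ρ) (X ω)) (fun ω => cel l (X ω)) := by
    apply ch_congr_left
    intro ω ω' _ _ _
    rw [Prod.mk.injEq]
    exact ⟨fun h => h.2, fun h => ⟨hn ρ ω ω' h, h⟩⟩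
  have h4 : CH ν (fun ω => cel (l + 1 + ρ) (X ω)) (fun ω => (cel (l + 1) (X ω), cel l (X ω))) =
      CH ν (fun ω => cel (l + 1 + ρ) (X ω)) (fun ω => cel (l + 1) (X ω)) := by
    apply ch_congr_right
    intro ω ω' _ _
    rw [Prod.mk.injEq]
    exact ⟨fun h => h.1, fun h => ⟨h, cel_step l h⟩⟩
  have h5 := st_E3.2 Ω (Fin 2 → ℤ) 2 ν (fun ω => cel (l + 1) (X ω)) (fun ω => cel l (X ω)) 1 hν0
    zero_le_one (fun a b _ _ h i => by
      have e : ⌊(2 : ℝ) ^ l * X a i⌋ = ⌊(2 : ℝ) ^ l * X b i⌋ := congrFun h i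
      have ha := floor_two (X a i) l
      have hb := floor_two (X b i) l
      have : |cel (l + 1) (X a) i - cel (l + 1) (X b) i| ≤ 1 := by
        show |⌊(2 : ℝ) ^ (l + 1) * X a i⌋ - ⌊(2 : ℝ) ^ (l + 1) * X b i⌋| ≤ 1
        rw [abs_le]
        constructor <;> omega
      exact_mod_cast this)
  have h6 : mass ν ≤ 2 * ρ := by
    have h7 : mass ν ≤ ∑ ω, 2 * ρ * μ ω := by
      refine Finset.sum_le_sum fun ω _ => ?_
      by_cases h0 : μ ω = 0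
      · rw [hν]; simp [h0]
      · exact mul_le_mul_of_nonneg_right (slo_eL_le μ hμ X ρ l ω h0) (hμ ω)
    rw [← Finset.mul_sum] at h7
    have : ∑ ω, μ ω = 1 := hm
    rw [this, mul_one] at h7
    exact h7
  have h8 : Real.logb 2 ((1 : ℝ) + 1) = 1 := by
    rw [one_add_one_eq_two, Real.logb_self_eq_one (by norm_num)]
  rw [h8] at h5
  push_cast at h5
  rw [h3, h4] at h2
  linarith

end slo

theorem st_SLO : ST_SLO := by
  intro Ω _ μ X hμ hm ρ M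
  set A : ℕ → ℝ := fun l => ∑ ω, μ ω * (eL μ X ρ l ω * eL μ X ρ l ω) with hA
  have h1 : ∀ l, ∑ ω, μ ω * (eL μ X ρ (l + 1) ω - eL μ X ρ l ω) ^ 2 ≤ A (l + 1) - A l + 8 * ρ := by
    intro l
    have h2 := slo_step μ hμ hm X ρ l
    have h3 : ∑ ω, μ ω * (eL μ X ρ (l + 1) ω - eL μ X ρ l ω) ^ 2 = A (l + 1) + A l -
        2 * ∑ ω, μ ω * (eL μ X ρ l ω * eL μ X ρ (l + 1) ω) := by
      rw [hA, Finset.mul_sum, ← Finset.sum_add_distrib, ← Finset.sum_sub_distrib]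
      refine Finset.sum_congr rfl fun ω _ => ?_
      ring
    have h4 : A l = ∑ ω, μ ω * (eL μ X ρ l ω * eL μ X ρ l ω) := rfl
    linarith
  refine (Finset.sum_le_sum fun l _ => h1 l).trans ?_
  rw [Finset.sum_add_distrib, Finset.sum_range_sub, Finset.sum_const, Finset.card_range,
    nsmul_eq_mul]
  have h5 : 0 ≤ A 0 := Finset.sum_nonneg fun ω _ => mul_nonneg (hμ ω) (mul_self_nonneg _)
  have h6 : A M ≤ 4 * (ρ : ℝ) ^ 2 := by
    have h7 : A M ≤ ∑ ω, 4 * (ρ : ℝ) ^ 2 * μ ω := by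
      refine Finset.sum_le_sum fun ω _ => ?_
      by_cases h0 : μ ω = 0
      · simp [h0]
      · have a0 := slo_eL_nonneg μ hμ X ρ M ω
        have a1 := slo_eL_le μ hμ X ρ M ω h0
        have a2 : eL μ X ρ M ω * eL μ X ρ M ω ≤ 2 * ρ * (2 * ρ) :=
          mul_le_mul a1 a1 a0 (a0.trans a1)
        have := mul_le_mul_of_nonneg_left a2 (hμ ω)
        refine this.trans (le_of_eq ?_)
        ring
    rw [← Finset.mul_sum] at h7
    have : ∑ ω, μ ω = 1 := hm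
    rw [this, mul_one] at h7
    exact h7
  linarith

end Pool.Agent.Helper92.W
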